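import Pool.Agent.N24.RW.Stm

set_option autoImplicit false

/-! # Many primes outside of pronull sets, and one exceptional set of times for countably many
conditions (helper342) -/

namespace Pool.Agent.N342.ORB

open Filter Topology Pool.Agent.N24.RW

/-! ### Divergent series split into divergent series -/

/-- a divergent series with nonnegative terms can be split into `k` divergent series -/
theorem split (f : ℕ → ℝ) (hf : ∀ n, 0 ≤ f n) (hs : ¬ Summable f) (k : ℕ) (hk : 0 < k) :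
    ∃ χ : ℕ → ℕ, (∀ n, χ n < k) ∧ ∀ i < k, ¬ Summable (fun n => if χ n = i then f n else 0) := by
  classical
  have htd := (not_summable_iff_tendsto_nat_atTop_of_nonneg hf).1 hs
  have hstep : ∀ n : ℕ, ∃ m : ℕ, n < m ∧ 1 ≤ ∑ i ∈ Finset.Ico n m, f i := by
    intro n
    obtain ⟨m, hm⟩ := ((htd.eventually_ge_atTop (∑ i ∈ Finset.range n, f i + 1)).and
      (eventually_gt_atTop n)).exists
    refine ⟨m, hm.2, ?_⟩
    rw [Finset.sum_Ico_eq_sub _ hm.2.le]
    linarith [hm.1]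
  choose nx hnx1 hnx2 using hstep
  obtain ⟨b, hb⟩ : ∃ b : ℕ → ℕ, b = fun j => nx^[j] 0 := ⟨_, rfl⟩
  have hbs : ∀ j, b (j + 1) = nx (b j) := fun j => by
    rw [hb]
    exact Function.iterate_succ_apply' nx j 0
  have hmono : StrictMono b := strictMono_nat_of_lt_succ fun j => by
    rw [hbs]
    exact hnx1 _
  have hblock : ∀ j, 1 ≤ ∑ i ∈ Finset.Ico (b j) (b (j + 1)), f i := fun j => by
    rw [hbs]
    exact hnx2 _
  have hb0 : b 0 = 0 := by rw [hb]; rfl
  obtain ⟨φ, hφ⟩ : ∃ φ : ℕ → ℕ, φ = fun n => Nat.findGreatest (fun j => b j ≤ n) n := ⟨_, rfl⟩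
  have hφe : ∀ j n, n ∈ Finset.Ico (b j) (b (j + 1)) → φ n = j := by
    intro j n hn
    rw [Finset.mem_Ico] at hn
    rw [hφ]
    simp only
    rw [Nat.findGreatest_eq_iff]
    refine ⟨(hmono.id_le j).trans hn.1, fun _ => hn.1, fun i hi _ hbi => ?_⟩
    have := hmono.monotone (show j + 1 ≤ i from hi)
    omega
  refine ⟨fun n => φ n % k, fun n => Nat.mod_lt _ hk, fun i hi hsum => ?_⟩
  rw [summable_iff_vanishing_norm] at hsum
  obtain ⟨s, hs'⟩ := hsum 1 one_pos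
  obtain ⟨N, hN⟩ : ∃ N : ℕ, ∀ n ∈ s, n < N := ⟨s.sup id + 1, fun n hn =>
    Nat.lt_succ_of_le (Finset.le_sup (f := id) hn)⟩
  have h1 := hs' (Finset.Ico (b (N * k + i)) (b (N * k + i + 1))) (by
    rw [Finset.disjoint_left]
    intro n hn hns
    have h2 := hN n hns
    rw [Finset.mem_Ico] at hn
    have h3 := hmono.id_le (N * k + i)
    have h4 : N ≤ N * k := Nat.le_mul_of_pos_right N hk
    simp only [id] at h3
    omega)
  have h2 : ∑ n ∈ Finset.Ico (b (N * k + i)) (b (N * k + i + 1)),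
      (if φ n % k = i then f n else 0) =
      ∑ n ∈ Finset.Ico (b (N * k + i)) (b (N * k + i + 1)), f n := by
    refine Finset.sum_congr rfl fun n hn => ?_
    rw [hφe _ n hn, Nat.mul_comm, Nat.mul_add_mod, Nat.mod_eq_of_lt hi, if_pos rfl]
  simp only at h1
  rw [h2, Real.norm_of_nonneg (Finset.sum_nonneg fun n _ => hf n)] at h1
  linarith [hblock (N * k + i)]

/-! ### Many primes -/

section

variable {ι : Type} [Fintype ι]

theorem proNull_empty : ProNull (∅ : Set (ι → ℤ)) := by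
  intro M hM ε hε
  refine ⟨1, one_pos, Nat.coprime_one_left M, ?_⟩
  rw [Set.image_empty, Set.ncard_empty, Nat.cast_zero]
  positivity

theorem proNull_union (hD : S_CLO) (s : Finset ℕ) (B : ℕ → Set (ι → ℤ))
    (h : ∀ i ∈ s, ProNull (B i)) : ProNull {c | ∃ i ∈ s, c ∈ B i} := by
  classical
  induction s using Finset.induction_on with
  | empty =>
    refine (hD ι).1 _ _ ?_ proNull_empty
    rintro c ⟨i, hi, -⟩
    exact absurd hi (Finset.notMem_empty i)
  | insert a s ha ih =>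
    refine (hD ι).1 _ _ ?_ ((hD ι).2.1 _ _ (h a (Finset.mem_insert_self a s))
      (ih fun i hi => h i (Finset.mem_insert_of_mem hi)))
    rintro c ⟨i, hi, hc⟩
    rcases Finset.mem_insert.1 hi with rfl | hi
    · exact Or.inl hc
    · exact Or.inr ⟨i, hi, hc⟩

/-- **Many primes.** The vectors which have fewer than `k` primes `p > T₀` such that the reduction
is in `Ω p` form a pronull set. -/
theorem crit_many (hC : S_CRIT) (hD : S_CLO) (Q : ℕ → ℕ) (hQ1 : ∀ p, p.Prime → 1 ≤ Q p)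
    (hQ2 : ∀ p p', p.Prime → p'.Prime → p ≠ p' → (Q p).Coprime (Q p'))
    (Ω : ∀ p : ℕ, Set (ι → ZMod (Q p))) (T₀ : ℕ) (w : ℕ → ℝ) (hw : ∀ p, 0 ≤ w p)
    (hns : ¬ Summable (fun p : ℕ => if p.Prime then w p else 0))
    (hwΩ : ∀ p, p.Prime → T₀ < p → w p * (Q p : ℝ) ^ Fintype.card ι ≤ ((Ω p).ncard : ℝ)) (k : ℕ) :
    ProNull {c : ι → ℤ | ¬ ∃ P : Finset ℕ, P.card = k ∧
      ∀ p ∈ P, p.Prime ∧ T₀ < p ∧ (fun i => (c i : ZMod (Q p))) ∈ Ω p} := by
  classical
  rcases Nat.eq_zero_or_pos k with rfl | hk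
  · refine (hD ι).1 _ _ ?_ proNull_empty
    intro c hc
    exact hc ⟨∅, rfl, fun p hp => absurd hp (Finset.notMem_empty p)⟩
  · obtain ⟨χ, hχ, hdiv⟩ := split (fun p : ℕ => if p.Prime then w p else 0) (fun p => by
      split_ifs
      · exact hw p
      · exact le_rfl) hns k hk
    have hB : ∀ i ∈ Finset.range k, ProNull {c : ι → ℤ | ∀ p, p.Prime → T₀ < p →
        (fun j => (c j : ZMod (Q p))) ∉ (if χ p = i then Ω p else ∅)} := by
      intro i hi
      refine hC ι Q hQ1 hQ2 (fun p => if χ p = i then Ω p else ∅) T₀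
        (fun p => if χ p = i then w p else 0) (fun p => ?_) (fun hsum => ?_) fun p hp hT => ?_
      · split_ifs
        · exact hw p
        · exact le_rfl
      · refine hdiv i (Finset.mem_range.1 hi) (hsum.congr fun p => ?_)
        split_ifs <;> rfl
      · by_cases h : χ p = i
        · rw [if_pos h, if_pos h]
          exact hwΩ p hp hT
        · rw [if_neg h, if_neg h, Set.ncard_empty, zero_mul, Nat.cast_zero]
    refine (hD ι).1 _ _ ?_ (proNull_union hD (Finset.range k) _ hB)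
    intro c hc
    by_contra hcon
    apply hc
    have h1 : ∀ i : Fin k, ∃ p : ℕ, p.Prime ∧ T₀ < p ∧ χ p = i ∧
        (fun j => (c j : ZMod (Q p))) ∈ Ω p := by
      intro i
      by_contra hi
      apply hcon
      refine ⟨i, Finset.mem_range.2 i.2, fun p hp hT hmem => hi ⟨p, hp, hT, ?_⟩⟩
      by_cases h : χ p = i
      · rw [if_pos h] at hmem
        exact ⟨h, hmem⟩
      · rw [if_neg h] at hmem
        exact absurd hmem (Set.notMem_empty _)
    choose p hp1 hp2 hp3 hp4 using h1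
    have hinj : Function.Injective p := fun i j hij => by
      apply Fin.ext
      rw [← hp3 i, ← hp3 j, hij]
    refine ⟨Finset.univ.image p, ?_, fun q hq => ?_⟩
    · rw [Finset.card_image_of_injective _ hinj, Finset.card_univ, Fintype.card_fin]
    · obtain ⟨i, -, rfl⟩ := Finset.mem_image.1 hq
      exact ⟨hp1 i, hp2 i, hp4 i⟩

end

/-! ### One set of times -/

/-- `A` has natural density zero -/
def DZ (A : Set ℕ) : Prop :=
  Tendsto (fun N : ℕ => (({n : ℕ | n < N ∧ n ∈ A}.ncard : ℕ) : ℝ) / (N : ℝ)) atTop (𝓝 0)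

theorem fin_lt (A : Set ℕ) (N : ℕ) : {n : ℕ | n < N ∧ n ∈ A}.Finite :=
  (Set.finite_Iio N).subset fun _ hn => hn.1

theorem DZ_iff (A : Set ℕ) : DZ A ↔ ∀ ε : ℝ, 0 < ε → ∃ N₀ : ℕ, ∀ N : ℕ, N₀ ≤ N →
    (({n : ℕ | n < N ∧ n ∈ A}.ncard : ℕ) : ℝ) ≤ ε * N := by
  unfold DZ
  rw [Metric.tendsto_atTop]
  constructor
  · intro h ε hε
    obtain ⟨N₀, h₀⟩ := h ε hε
    refine ⟨max N₀ 1, fun N hN => ?_⟩
    have h1 := h₀ N ((le_max_left _ _).trans hN)
    have hN0 : (0 : ℝ) < N := by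
      have := (le_max_right _ _).trans hN
      exact_mod_cast this
    rw [Real.dist_eq, sub_zero, abs_of_nonneg (by positivity), div_lt_iff₀ hN0] at h1
    exact h1.le
  · intro h ε hε
    obtain ⟨N₀, h₀⟩ := h (ε / 2) (by positivity)
    refine ⟨max N₀ 1, fun N hN => ?_⟩
    have h1 := h₀ N ((le_max_left _ _).trans hN)
    have hN0 : (0 : ℝ) < N := by
      have := (le_max_right _ _).trans hN
      exact_mod_cast this
    rw [Real.dist_eq, sub_zero, abs_of_nonneg (by positivity), div_lt_iff₀ hN0]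
    nlinarith

theorem DZ_mono {A B : Set ℕ} (h : A ⊆ B) (hB : DZ B) : DZ A := by
  rw [DZ_iff] at hB ⊢
  intro ε hε
  obtain ⟨N₀, h₀⟩ := hB ε hε
  refine ⟨N₀, fun N hN => le_trans ?_ (h₀ N hN)⟩
  have hsub : {n : ℕ | n < N ∧ n ∈ A} ⊆ {n : ℕ | n < N ∧ n ∈ B} := fun n hn => ⟨hn.1, h hn.2⟩
  exact_mod_cast Set.ncard_le_ncard hsub (fin_lt B N)

theorem DZ_empty : DZ ∅ := by
  rw [DZ_iff]
  intro ε hε
  refine ⟨0, fun N _ => ?_⟩
  have : {n : ℕ | n < N ∧ n ∈ (∅ : Set ℕ)} = ∅ := by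
    ext n
    simp
  rw [this, Set.ncard_empty, Nat.cast_zero]
  positivity

theorem DZ_union {A B : Set ℕ} (hA : DZ A) (hB : DZ B) : DZ (A ∪ B) := by
  rw [DZ_iff] at hA hB ⊢
  intro ε hε
  obtain ⟨N₁, h₁⟩ := hA (ε / 2) (by positivity)
  obtain ⟨N₂, h₂⟩ := hB (ε / 2) (by positivity)
  refine ⟨max N₁ N₂, fun N hN => ?_⟩
  have a1 := h₁ N ((le_max_left _ _).trans hN)
  have a2 := h₂ N ((le_max_right _ _).trans hN)
  have hsub : {n : ℕ | n < N ∧ n ∈ A ∪ B} ⊆ {n : ℕ | n < N ∧ n ∈ A} ∪ {n : ℕ | n < N ∧ n ∈ B} := by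
    rintro n ⟨h1, h2 | h2⟩
    · exact Or.inl ⟨h1, h2⟩
    · exact Or.inr ⟨h1, h2⟩
  have h3 := (Set.ncard_le_ncard hsub ((fin_lt A N).union (fin_lt B N))).trans
    (Set.ncard_union_le _ _)
  have h4 : (({n : ℕ | n < N ∧ n ∈ A ∪ B}.ncard : ℕ) : ℝ) ≤ _ := Nat.cast_le.2 h3
  push_cast at h4
  linarith

/-- **One set of times** for countably many sets of density zero. -/
theorem one_set {𝓘 : Type*} [Countable 𝓘] (A : 𝓘 → Set ℕ) (h : ∀ i, DZ (A i)) :
    ∃ E : Set ℕ, DZ E ∧ ∀ i, (A i \ E).Finite := by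
  classical
  rcases isEmpty_or_nonempty 𝓘 with he | hne
  · exact ⟨∅, DZ_empty, fun i => he.elim i⟩
  obtain ⟨f, hf⟩ := exists_surjective_nat 𝓘
  obtain ⟨E, hE⟩ : ∃ E : ℕ → Set ℕ, E = fun k => {t : ℕ | ∃ i ≤ k, t ∈ A (f i)} := ⟨_, rfl⟩
  have hEmono : Monotone E := by
    intro k k' hk t ht
    rw [hE] at ht ⊢
    obtain ⟨i, hi, ht⟩ := ht
    exact ⟨i, hi.trans hk, ht⟩
  have hED : ∀ k, DZ (E k) := by
    intro k
    rw [hE]
    induction k with
    | zero =>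
      refine DZ_mono ?_ (h (f 0))
      rintro t ⟨i, hi, ht⟩
      rwa [Nat.le_zero.1 hi] at ht
    | succ k ih =>
      refine DZ_mono ?_ (DZ_union ih (h (f (k + 1))))
      rintro t ⟨i, hi, ht⟩
      rcases Nat.lt_or_ge k i with h1 | h1
      · right
        have : i = k + 1 := by omega
        rwa [this] at ht
      · left
        exact ⟨i, h1, ht⟩
  have hg : ∀ k : ℕ, ∃ g : ℕ, ∀ N : ℕ, g ≤ N →
      (({n : ℕ | n < N ∧ n ∈ E k}.ncard : ℕ) : ℝ) ≤ 1 / (k + 1) * N := fun k =>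
    (DZ_iff _).1 (hED k) (1 / (k + 1)) (by positivity)
  choose g hg using hg
  obtain ⟨κ, hκ⟩ : ∃ κ : ℕ → ℕ, κ = fun t => Nat.findGreatest (fun k => g k ≤ t) t := ⟨_, rfl⟩
  have hκmono : Monotone κ := by
    intro t t' htt
    rw [hκ]
    exact Nat.findGreatest_mono (fun k hk => le_trans hk htt) htt
  have hκge : ∀ k t, k ≤ t → g k ≤ t → k ≤ κ t := fun k t h1 h2 => by
    rw [hκ]
    exact Nat.le_findGreatest h1 h2
  have hκsp : ∀ t, κ t ≠ 0 → g (κ t) ≤ t := by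
    intro t h0
    exact Nat.findGreatest_of_ne_zero (P := fun k => g k ≤ t) (n := t) (by rw [hκ]) h0
  refine ⟨{t | t ∈ E (κ t)}, ?_, ?_⟩
  · rw [DZ_iff]
    intro ε hε
    obtain ⟨k₀, hk₀⟩ := exists_nat_one_div_lt hε
    refine ⟨k₀ + 1 + g (k₀ + 1), fun N hN => ?_⟩
    have hk : k₀ + 1 ≤ κ N := hκge _ _ (by omega) (by omega)
    have hgN : g (κ N) ≤ N := hκsp N (by omega)
    have hsub : {n : ℕ | n < N ∧ n ∈ {t | t ∈ E (κ t)}} ⊆ {n : ℕ | n < N ∧ n ∈ E (κ N)} := by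
      rintro n ⟨hn, hn'⟩
      exact ⟨hn, hEmono (hκmono hn.le) hn'⟩
    have h3 := hg (κ N) N hgN
    have h4 : (({n : ℕ | n < N ∧ n ∈ {t | t ∈ E (κ t)}}.ncard : ℕ) : ℝ) ≤
        ({n : ℕ | n < N ∧ n ∈ E (κ N)}.ncard : ℕ) := by
      exact_mod_cast Set.ncard_le_ncard hsub (fin_lt _ N)
    refine h4.trans (h3.trans ?_)
    have h5 : 1 / ((κ N : ℕ) + 1 : ℝ) ≤ ε := by
      refine le_trans ?_ hk₀.le
      apply one_div_le_one_div_of_le (by positivity)
      have : ((k₀ + 1 : ℕ) : ℝ) ≤ (κ N : ℕ) := by exact_mod_cast hk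
      push_cast at this
      linarith
    exact mul_le_mul_of_nonneg_right h5 (Nat.cast_nonneg N)
  · intro i
    obtain ⟨k, rfl⟩ := hf i
    refine (Set.finite_Iio (k + g k + 1)).subset ?_
    rintro t ⟨ht, ht'⟩
    simp only [Set.mem_Iio]
    by_contra hlt
    refine ht' (hEmono (hκge k t (by omega) (by omega)) ?_)
    rw [hE]
    exact ⟨k, le_rfl, ht⟩

end Pool.Agent.N342.ORB
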